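import Pool.Agent.R118.PM.Main

/-!
# Rigidity of paneled polyhedra cut along a matching (MP_e0197a_co)

Cutting a paneled convex polyhedron along a matching of its 1-skeleton does not create new motions.
-/

set_option autoImplicit false

namespace Pool.Agent.Results.MP_e0197a_co.CutHingesAreRespected

open Pool.Agent.R118.PM

/-- For every convex polyhedron and every matching `M` in its 1-skeleton: the motions of the paneled
polyhedron cut along `M` are exactly the motions of the paneled polyhedron with all hinges; in
particular the cut structure is rigid if and only if the structure with all hinges is rigid. -/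
theorem result {ι : Type} [Fintype ι] (P : Pool.Agent.R118.PM.Poly ι) (hP : IsPolyhedron P) (M : Set (Set E3))
    (hM : IsMatching P M) :
    (∀ g : ι → ℝ → (E3 ≃ᵢ E3), IsMotion P M g ↔ IsMotion P ∅ g) ∧ (Rigid P M ↔ Rigid P ∅) :=
  ⟨motion_iff hP hM, rigid_iff hP hM⟩

end Pool.Agent.Results.MP_e0197a_co.CutHingesAreRespected
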