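import Pool.Agent.R118.PM.Simple

/-!
# Rigidity of paneled polyhedra cut along a matching (MP_e0197a_co): simple polyhedra
-/

set_option autoImplicit false

namespace Pool.Agent.Results.MP_e0197a_co.SimplePolyhedra

open Pool.Agent.R118.PM

/-- For every simple convex polyhedron (every vertex lies on exactly three faces) and every matching
`M` in its 1-skeleton the paneled polyhedron cut along `M` is rigid. -/
theorem result {ι : Type} [Fintype ι] (P : Pool.Agent.R118.PM.Poly ι) (hP : IsPolyhedron P)
    (hS : Simple P) (M : Set (Set E3)) (hM : IsMatching P M) : Rigid P M :=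
  (rigid_iff hP hM).2 (simple_rigid hP hS)

end Pool.Agent.Results.MP_e0197a_co.SimplePolyhedra
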